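import Pool.Agent.Helper42.AV.RD2
import Pool.Agent.Helper75.UN.SR

/-!
MP_b8862a_ag, all types, block SE: a block with a place of bad reduction has a simple Lie algebra
(the section theorem).
-/

set_option linter.unusedSimpArgs false
set_option linter.unusedSectionVars false
set_option linter.unusedVariables false

open Module

namespace AV

open MTP UN

namespace SE

section dich
variable {K : Type*} [Field K] {V : Type*} [AddCommGroup V] [Module K V] [FiniteDimensional K V]
variable {L M I : Submodule K (Module.End K V)}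

/-- The dichotomy for elements with a quadratic equation with central coefficients. -/
theorem sq_dich [CharZero K] (hL : Red L) (hM : IsId L M) {s w c : Module.End K V}
    (hs : s ∈ L) (hw : ∀ x ∈ L, w * x = x * w) (hc : ∀ x ∈ L, c * x = x * c)
    (hss : s * s = c + w * s) : s ∈ M ∨ s ∈ orth L M := by
  obtain ⟨a, ha, hb⟩ := hL.sup_orth hM hs
  generalize hbdef : s - a = b at hb
  have hsab : s = a + b := by rw [← hbdef]; abel
  have hN := orth_isId hL.br hM
  have hab := hL.orth_comm hM ha hb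
  have hcen : ∀ z ∈ M, ∀ z' ∈ orth L M, (z * a - a * z) * (z' * b - b * z') = 0 := by
    intro z hz z' hz'
    have c1 := hL.orth_comm hM hz hz'
    have c2 := hL.orth_comm hM hz hb
    have c3 := hL.orth_comm hM ha hz'
    have w1 := hw z (hM.1 hz)
    have w2 := hw z' hz'.1
    have k0 := hc z (hM.1 hz)
    -- the square of `s`
    have h1 : a * a + (2 : K) • (a * b) + b * b = c + w * (a + b) := by
      rw [← hsab, ← hss, hsab]
      simp only [add_mul, mul_add]
      rw [← hab]
      module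
    -- bracket with `z`
    have h2 : (z * (a * a) - a * a * z) + (2 : K) • ((z * a - a * z) * b) =
        w * (z * a - a * z) := by
      have e1 := congrArg (fun y => z * y - y * z) h1
      simp only [mul_add, add_mul, mul_smul_comm, smul_mul_assoc, mul_one, one_mul] at e1
      have e2 : z * (b * b) = b * b * z := by
        calc z * (b * b) = (z * b) * b := by rw [mul_assoc]
          _ = b * z * b := by rw [c2]
          _ = b * (z * b) := by rw [mul_assoc]
          _ = _ := by rw [c2, mul_assoc]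
      have e3 : a * b * z = a * z * b := by rw [mul_assoc, ← c2, mul_assoc]
      have e4 : z * (w * a) = w * (z * a) := by rw [← mul_assoc, ← w1, mul_assoc]
      have e5 : z * (w * b) = w * b * z := by rw [← mul_assoc, ← w1, mul_assoc, c2, mul_assoc]
      rw [e2, e3, e4, e5, k0] at e1
      have e6 : (z * (a * a) - a * a * z) + (2 : K) • ((z * a - a * z) * b) =
          (z * (a * a) + (2 : K) • (z * (a * b)) + b * b * z -
            (a * a * z + (2 : K) • (a * z * b) + b * b * z)) := by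
        rw [sub_mul, mul_assoc z a b]
        module
      rw [e6, e1, mul_sub, mul_assoc w a z]
      abel
    have h3 := congrArg (fun y => z' * y - y * z') h2
    simp only [mul_add, add_mul, mul_smul_comm, smul_mul_assoc] at h3
    have e4 : z' * (z * (a * a) - a * a * z) = (z * (a * a) - a * a * z) * z' := by
      have k1 : z' * a = a * z' := c3.symm
      have k2 : z' * z = z * z' := c1.symm
      have k3 : z' * (a * a) = a * a * z' := by rw [← mul_assoc, k1, mul_assoc, k1, mul_assoc]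
      rw [mul_sub, sub_mul, ← mul_assoc z', k2, mul_assoc z z', k3, ← mul_assoc z' (a * a) z, k3,
        mul_assoc (a * a) z' z, k2]
      simp only [mul_assoc]
    have e7 : z' * (z * a - a * z) = (z * a - a * z) * z' := by
      rw [mul_sub, sub_mul, ← mul_assoc, ← c1, mul_assoc, ← c3, ← mul_assoc, ← mul_assoc, ← c3,
        mul_assoc a z' z, ← c1]
      simp only [mul_assoc]
    have e5 : z' * ((z * a - a * z) * b) = (z * a - a * z) * (z' * b) := by
      rw [← mul_assoc, e7, mul_assoc]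
    have e8 : z' * (w * (z * a - a * z)) - w * (z * a - a * z) * z' = 0 := by
      rw [← mul_assoc, ← w2, mul_assoc, e7, mul_assoc, sub_self]
    rw [e4, e5, e8] at h3
    have e6 : (z * a - a * z) * (z' * b - b * z') =
        (2 : K)⁻¹ • ((z * (a * a) - a * a * z) * z' + (2 : K) • ((z * a - a * z) * (z' * b)) -
          ((z * (a * a) - a * a * z) * z' + (2 : K) • ((z * a - a * z) * b * z'))) := by
      have : (z * (a * a) - a * a * z) * z' + (2 : K) • ((z * a - a * z) * (z' * b)) -
          ((z * (a * a) - a * a * z) * z' + (2 : K) • ((z * a - a * z) * b * z')) =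
          (2 : K) • ((z * a - a * z) * (z' * b - b * z')) := by
        rw [mul_sub (z * a - a * z), ← mul_assoc (z * a - a * z) b z']
        module
      rw [this, smul_smul, inv_mul_cancel₀ two_ne_zero, one_smul]
    rw [e6, h3, smul_zero]
  by_cases h : ∃ z ∈ M, z * a - a * z ≠ 0
  · obtain ⟨z, hz, hza⟩ := h
    left
    have hb0 : b = 0 := by
      apply hL.cen b hb.1
      intro y hy
      obtain ⟨y1, hy1, hy2⟩ := hL.sup_orth hM hy
      have k1 : b * y1 = y1 * b := (hL.orth_comm hM hy1 hb).symm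
      have k2 : b * (y - y1) = (y - y1) * b := by
        have h1 := hL.star M hM _ (hM.2 z (hM.1 hz) a ha) _ (hN.2 _ hy2.1 b hb)
          (hcen z hz _ hy2)
        rcases h1 with h1 | h1
        · exact absurd h1 hza
        · exact (sub_eq_zero.mp h1).symm
      have e : y = y1 + (y - y1) := by abel
      rw [e, mul_add, add_mul, k1, k2]
    rw [hsab, hb0, add_zero]; exact ha
  · push Not at h
    right
    have ha0 : a = 0 := by
      apply hL.cen a (hM.1 ha)
      intro y hy
      obtain ⟨y1, hy1, hy2⟩ := hL.sup_orth hM hy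
      have k1 : a * y1 = y1 * a := (sub_eq_zero.mp (h y1 hy1)).symm
      have k2 : a * (y - y1) = (y - y1) * a := hL.orth_comm hM ha hy2
      have e : y = y1 + (y - y1) := by abel
      rw [e, mul_add, add_mul, k1, k2]
    rw [hsab, ha0, zero_add]; exact hb

/-- Such an element lies in a minimal ideal. -/
lemma exists_min_mem [CharZero K] (hL : Red L) {s w c : Module.End K V}
    (hs : s ∈ L) (hw : ∀ x ∈ L, w * x = x * w) (hc : ∀ x ∈ L, c * x = x * c)
    (hss : s * s = c + w * s) (hs0 : s ≠ 0) : ∃ I, IsMin L I ∧ s ∈ I := by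
  by_contra hcon
  push Not at hcon
  apply hs0
  apply hL.zero_of_comm_min hs
  intro I hI x hx
  have h1 := (sq_dich hL hI.1 hs hw hc hss).resolve_left (hcon I hI)
  exact (hL.mem_orth_iff hI.1 hs).mp h1 x hx

end dich

section perm

/-- Jordan's theorem for the classes of a function `F` with finitely many values. -/
lemma jordan {R : Type*} [Ring R] {X : Type*} {S : Set R} {F : R → X} (hfin : (F '' S).Finite)
    {T : Set (R ≃+* R)} (hone : RingEquiv.refl _ ∈ T)
    (hmul : ∀ τ ∈ T, ∀ τ' ∈ T, τ'.trans τ ∈ T) (hinv : ∀ τ ∈ T, τ.symm ∈ T)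
    (hS : ∀ τ ∈ T, ∀ p ∈ S, τ p ∈ S)
    (hW : ∀ τ ∈ T, ∀ p ∈ S, ∀ q ∈ S, F p = F q → F (τ p) = F (τ q))
    (htr : ∀ p ∈ S, ∀ q ∈ S, ∃ τ ∈ T, F (τ p) = F q)
    (hfix : ∀ τ ∈ T, ∃ p ∈ S, F (τ p) = F p) : ∀ p ∈ S, ∀ q ∈ S, F p = F q := by
  classical
  let X0 := {x : X // x ∈ F '' S}
  have hX : Finite X0 := hfin
  have hact : ∀ τ ∈ T, ∀ x : X0, ∃ y : X0, ∀ p ∈ S, F p = x.1 → F (τ p) = y.1 := by
    rintro τ hτ ⟨_, p, hp, rfl⟩
    exact ⟨⟨F (τ p), _, hS τ hτ p hp, rfl⟩, fun q hq h => hW τ hτ q hq p hp h⟩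
  choose! act hact using hact
  have hsymm : ∀ τ ∈ T, ∀ x : X0, act τ.symm (act τ x) = x := by
    rintro τ hτ ⟨_, p, hp, rfl⟩
    apply Subtype.ext
    have h1 := hact τ hτ ⟨F p, p, hp, rfl⟩ p hp rfl
    have h2 := hact τ.symm (hinv τ hτ) (act τ ⟨F p, p, hp, rfl⟩) (τ p) (hS τ hτ p hp) h1
    rw [RingEquiv.symm_apply_apply] at h2
    exact h2.symm
  let H : Subgroup (Equiv.Perm X0) :=
    { carrier := {ρ | ∃ τ ∈ T, ∀ x, ρ x = act τ x}
      one_mem' := by
        refine ⟨_, hone, ?_⟩
        rintro ⟨_, p, hp, rfl⟩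
        apply Subtype.ext
        exact hact _ hone ⟨F p, p, hp, rfl⟩ p hp rfl
      mul_mem' := by
        rintro ρ ρ' ⟨τ, hτ, h⟩ ⟨τ', hτ', h'⟩
        refine ⟨τ'.trans τ, hmul τ hτ τ' hτ', ?_⟩
        rintro ⟨_, p, hp, rfl⟩
        rw [Equiv.Perm.mul_apply, h, h']
        apply Subtype.ext
        have h1 := hact τ' hτ' ⟨F p, p, hp, rfl⟩ p hp rfl
        have h2 := hact τ hτ _ (τ' p) (hS τ' hτ' p hp) h1
        have h3 := hact _ (hmul τ hτ τ' hτ') ⟨F p, p, hp, rfl⟩ p hp rfl
        rw [← h2, ← h3]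
        rfl
      inv_mem' := by
        rintro ρ ⟨τ, hτ, h⟩
        refine ⟨τ.symm, hinv τ hτ, fun x => ?_⟩
        rw [Equiv.Perm.inv_eq_iff_eq, h]
        have := hsymm τ.symm (hinv τ hτ) x
        rw [RingEquiv.symm_symm] at this
        exact this.symm }
  have hperm : ∀ τ ∈ T, ∃ ρ ∈ H, ∀ x, ρ x = act τ x := by
    intro τ hτ
    let ρ : Equiv.Perm X0 :=
      { toFun := act τ
        invFun := act τ.symm
        left_inv := hsymm τ hτ
        right_inv := by
          intro x
          have := hsymm τ.symm (hinv τ hτ) x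
          rw [RingEquiv.symm_symm] at this
          exact this }
    exact ⟨ρ, ⟨τ, hτ, fun _ => rfl⟩, fun _ => rfl⟩
  have htrans : ∀ a b : X0, ∃ h ∈ H, h a = b := by
    rintro ⟨_, p, hp, rfl⟩ ⟨_, q, hq, rfl⟩
    obtain ⟨τ, hτ, h⟩ := htr p hp q hq
    obtain ⟨ρ, hρ, h'⟩ := hperm τ hτ
    refine ⟨ρ, hρ, Subtype.ext ?_⟩
    rw [h']
    change _ = F q
    rw [← h]
    exact (hact τ hτ ⟨F p, p, hp, rfl⟩ p hp rfl).symm
  intro p hp q hq
  by_contra hne
  obtain ⟨ρ, ⟨τ, hτ, hρ⟩, hd⟩ := exists_derangement H htrans (a := ⟨F p, p, hp, rfl⟩)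
    (b := ⟨F q, q, hq, rfl⟩) (fun h => hne (congrArg Subtype.val h))
  obtain ⟨p', hp', hp''⟩ := hfix τ hτ
  apply hd ⟨F p', p', hp', rfl⟩
  rw [hρ]
  apply Subtype.ext
  change _ = F p'
  rw [← hact τ hτ ⟨F p', p', hp', rfl⟩ p' hp' rfl, hp'']

end perm

section im

variable {K : Type*} [Field K] {V : Type*} [AddCommGroup V] [Module K V]
variable {L L' M I : Submodule K (Module.End K V)}

/-- The image of a minimal ideal under a symmetry. -/
lemma isMin_im {τ : Module.End K V ≃+* Module.End K V} (hmem : ∀ x, τ x ∈ L' ↔ x ∈ L)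
    {σ : K ≃+* K} (hσ : ∀ (c : K) (x : Module.End K V), τ (c • x) = σ c • τ x)
    (h : IsMin L I) : IsMin L' (imT τ hσ I) := by
  obtain ⟨hI, hI0, hmin⟩ := h
  have hsymm : ∀ (c : K) (x : Module.End K V), τ.symm (c • x) = σ.symm c • τ.symm x := by
    intro c x
    apply τ.injective
    rw [hσ]; simp
  have hsL : ∀ y, τ.symm y ∈ L ↔ y ∈ L' := by
    intro y
    rw [← hmem, RingEquiv.apply_symm_apply]
  have himI : IsId L' (imT τ hσ I) := by
    refine ⟨fun y hy => (hsL y).mp (hI.1 hy), ?_⟩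
    intro x hx y hy
    rw [mem_imT, map_sub, map_mul, map_mul]
    exact hI.2 _ ((hsL x).mpr hx) _ hy
  refine ⟨himI, ?_, ?_⟩
  · intro h
    apply hI0
    rw [eq_bot_iff]
    intro x hx
    have h1 : τ x ∈ imT τ hσ I := by rw [mem_imT, RingEquiv.symm_apply_apply]; exact hx
    rw [h, Submodule.mem_bot] at h1
    rw [Submodule.mem_bot]
    have := congrArg τ.symm h1
    simpa using this
  · intro J hJ hJi hJ0
    have hJ' : imT τ.symm (σ := σ.symm) hsymm J = I := by
      apply hmin
      · intro x hx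
        rw [mem_imT] at hx
        have := hJ hx
        rw [mem_imT] at this
        simpa using this
      · refine ⟨fun y hy => ?_, ?_⟩
        · rw [mem_imT] at hy
          exact (hmem y).mp (hJi.1 hy)
        · intro x hx y hy
          rw [mem_imT, RingEquiv.symm_symm, map_sub, map_mul, map_mul]
          exact hJi.2 _ ((hmem x).mpr hx) _ hy
      · intro h
        apply hJ0
        rw [eq_bot_iff]
        intro x hx
        have h1 : τ.symm x ∈ imT τ.symm (σ := σ.symm) hsymm J := by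
          rw [mem_imT, RingEquiv.symm_symm, RingEquiv.apply_symm_apply]; exact hx
        rw [h, Submodule.mem_bot] at h1
        rw [Submodule.mem_bot]
        have := congrArg τ h1
        simpa using this
    apply le_antisymm hJ
    intro y hy
    rw [mem_imT, ← hJ', mem_imT, RingEquiv.symm_symm, RingEquiv.apply_symm_apply] at hy
    exact hy

lemma cj0 {R : Type*} [Ring R] {g h x e : R} (hgh : g * h = 1) (hhg : h * g = 1)
    (hc : h * e = e * h) : g * x * h * e = 0 ↔ x * e = 0 := by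
  have e1 : g * x * h * e = g * (x * e) * h := by
    rw [mul_assoc (g * x), hc]; simp only [mul_assoc]
  rw [e1]
  constructor
  · intro h0
    have : h * (g * (x * e) * h) * g = x * e := by
      calc h * (g * (x * e) * h) * g = (h * g) * (x * e) * (h * g) := by simp only [mul_assoc]
        _ = _ := by rw [hhg]; simp
    rw [← this, h0]; simp
  · intro h0
    rw [h0]; simp

lemma cj1 {R : Type*} [Ring R] {g h x e : R} (hgh : g * h = 1) (hhg : h * g = 1)
    (hc : h * e = e * h) (hc' : g * e = e * g) : g * x * h * e = e ↔ x * e = e := by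
  have e1 : g * x * h * e = g * (x * e) * h := by
    rw [mul_assoc (g * x), hc]; simp only [mul_assoc]
  rw [e1]
  constructor
  · intro h0
    have : h * (g * (x * e) * h) * g = x * e := by
      calc h * (g * (x * e) * h) * g = (h * g) * (x * e) * (h * g) := by simp only [mul_assoc]
        _ = _ := by rw [hhg]; simp
    rw [← this, h0, hc, mul_assoc, hhg, mul_one]
  · intro h0
    rw [h0, hc', mul_assoc, hgh, mul_one]

end im

section main
variable {K : Type*} [Field K] [IsAlgClosed K] [CharZero K] {V : Type*} [AddCommGroup V]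
  [Module K V] [FiniteDimensional K V]
  {ω : LinearMap.BilinForm K V} {G : Set (Module.End K V)}
  {T : Set (Module.End K V ≃+* Module.End K V)} {p0 ε e p u : Module.End K V}
  {I I' : Submodule K (Module.End K V)}

/-- Bad reduction of the images of a block. -/
lemma bad_tw (D : MStr ω G T p0) {τ : Module.End K V ≃+* Module.End K V} (hτ : τ ∈ T) {r : ℕ}
    (hb : BadE G T p0 ε r) : BadE G T p0 (τ ε) r := by
  intro τ1 hτ1 E
  obtain ⟨τ', hτ', hE, u, hu, p, hp, h1, h2, h3, h4⟩ := hb τ1 hτ1 E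
  refine ⟨τ', hτ', hE, u, hu, p, hp, h1, h2, h3, fun τ'' hτ'' => ?_⟩
  exact h4 (τ.trans τ'') (D.tmul _ hτ'' _ hτ)

end main

end SE

section main
variable {K : Type*} [Field K] [IsAlgClosed K] [CharZero K] {V : Type*} [AddCommGroup V]
  [Module K V] [FiniteDimensional K V]
  {ω : LinearMap.BilinForm K V} {G : Set (Module.End K V)}
  {T : Set (Module.End K V ≃+* Module.End K V)} {p0 ε e p u : Module.End K V}
  {I I' : Submodule K (Module.End K V)}

/-- NS -/
theorem MStr.ns (D : MStr ω G T p0) (hε : Bl (AA G T p0) ε) {r : ℕ} (hr : 0 < r)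
    (hb : BadE G T p0 ε r) : ∀ p ∈ SC G T p0, p * ε ≠ 0 ∧ p * ε ≠ ε := by
  rintro p ⟨τ, hτ, g, hg, h, hh, hgh, hhg, rfl⟩
  obtain ⟨τ', hτ', -, u, hu, P, ⟨τ1, hτ1, g', hg', h', hh', hgh', hhg', rfl⟩, h1, h2, -, h4⟩ :=
    hb _ D.tone ∅
  have hc : h * ε = ε * h := (hε.cen h (D.g_mem hh)).symm
  have hc' : g * ε = ε * g := (hε.cen g (D.g_mem hg)).symm
  have hB1 := D.tw_bl (D.tmul _ hτ1 _ (D.tinv _ hτ)) hε
  have hr1 := h4 _ (D.tmul _ hτ1 _ (D.tinv _ hτ))
  generalize he : (τ.symm.trans τ1) ε = e' at hB1 hr1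
  have he' : τ1 (τ.symm ε) = e' := he
  have k1 : h' * e' = e' * h' := (hB1.cen h' (D.g_mem hh')).symm
  have k1' : g' * e' = e' * g' := (hB1.cen g' (D.g_mem hg')).symm
  have k2 : (u - 1) * e' = e' * (u - 1) := by
    rw [sub_mul, mul_sub, one_mul, mul_one, (hB1.cen u (D.g_mem hu)).symm]
  have hne : (u - 1) * e' ≠ 0 := by
    intro h0
    rw [h0] at hr1
    have : MTP.rk (0 : Module.End K V) = 0 := rk_eq_zero.mpr rfl
    omega
  constructor
  · intro h0
    apply hne
    rw [SE.cj0 hgh hhg hc] at h0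
    have h5 : τ1 p0 * e' = 0 := by
      have := congrArg (fun y => τ1 (τ.symm y)) h0
      simp only [map_mul, map_zero, RingEquiv.symm_apply_apply] at this
      rwa [he'] at this
    rw [← SE.cj0 hgh' hhg' k1] at h5
    rw [← h1, mul_assoc, k2, ← mul_assoc, h5, zero_mul]
  · intro h0
    apply hne
    rw [SE.cj1 hgh hhg hc hc'] at h0
    have h5 : τ1 p0 * e' = e' := by
      have := congrArg (fun y => τ1 (τ.symm y)) h0
      simp only [map_mul, map_zero, RingEquiv.symm_apply_apply] at this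
      rwa [he'] at this
    rw [← SE.cj1 hgh' hhg' k1 k1'] at h5
    rw [← h5, ← mul_assoc, h2, zero_mul]

end main

namespace SE

section main
variable {K : Type*} [Field K] [IsAlgClosed K] [CharZero K] {V : Type*} [AddCommGroup V]
  [Module K V] [FiniteDimensional K V]
  {ω : LinearMap.BilinForm K V} {G : Set (Module.End K V)}
  {T : Set (Module.End K V ≃+* Module.End K V)} {p0 ε e p u : Module.End K V}
  {I I' : Submodule K (Module.End K V)}

/-- `I` is the minimal ideal of the block `e` containing the component of `p`. -/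
def MI (G : Set (Module.End K V)) (T : Set (Module.End K V ≃+* Module.End K V))
    (p0 e p : Module.End K V) (I : Submodule K (Module.End K V)) : Prop :=
  IsMin (Lb G T p0 e) I ∧ ∃ c : K, (p - c • 1) * e ∈ I

/-- The scalar is unique. -/
lemma c_unique (D : MStr ω G T p0) (he : Bl (AA G T p0) e) {c c' : K}
    (h : (p - c • 1) * e ∈ Lb G T p0 e) (h' : (p - c' • 1) * e ∈ Lb G T p0 e) : c = c' := by
  have h1 := D.lb_tr he h
  have h2 := D.lb_tr he h'
  rw [sub_mul, smul_mul_assoc, one_mul, map_sub, map_smul, smul_eq_mul] at h1 h2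
  have h3 : (c - c') * LinearMap.trace K V e = 0 := by linear_combination h2 - h1
  rcases mul_eq_zero.mp h3 with h4 | h4
  · exact sub_eq_zero.mp h4
  · exact absurd h4 (D.trace_bl_ne he)

/-- The component of `p` is not zero. -/
lemma s_ne (D : MStr ω G T p0) (he : Bl (AA G T p0) e) (hp : p ∈ SC G T p0)
    (hns : p * e ≠ 0 ∧ p * e ≠ e) (c : K) : (p - c • 1) * e ≠ 0 := by
  intro h0
  rw [sub_mul, smul_mul_assoc, one_mul, sub_eq_zero] at h0
  have h1 : p * (p * e) = p * e := by rw [← mul_assoc, D.c1 hp]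
  rw [h0, mul_smul_comm, h0, smul_smul] at h1
  have h2 : (c * c - c) • e = 0 := by rw [sub_smul, h1, sub_self]
  rcases smul_eq_zero.mp h2 with h3 | h3
  · have h4 : c * (c - 1) = 0 := by rw [mul_sub, mul_one]; exact h3
    rcases mul_eq_zero.mp h4 with h5 | h5
    · apply hns.1; rw [h0, h5, zero_smul]
    · apply hns.2; rw [h0, sub_eq_zero.mp h5, one_smul]
  · exact he.ne h3

lemma mi_unique (D : MStr ω G T p0) (he : Bl (AA G T p0) e) (hp : p ∈ SC G T p0)
    (hns : p * e ≠ 0 ∧ p * e ≠ e) (h : MI G T p0 e p I) (h' : MI G T p0 e p I') : I = I' := by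
  obtain ⟨h1, c, hc⟩ := h
  obtain ⟨h2, c', hc'⟩ := h'
  have hcc := c_unique D he (h1.1.1 hc) (h2.1.1 hc')
  rw [← hcc] at hc'
  exact h1.eq_of_mem h2 hc hc' (s_ne D he hp hns c)

lemma mi_exists (D : MStr ω G T p0) (he : Bl (AA G T p0) e) (hp : p ∈ SC G T p0)
    (hns : p * e ≠ 0 ∧ p * e ≠ e) : ∃ I, MI G T p0 e p I := by
  obtain ⟨c, hc⟩ := D.lb_p he hp
  obtain ⟨I, hI, h⟩ := exists_min_mem (D.red_lb he) hc (w := (1 - 2 * c) • 1)
    (c := (c * (1 - c)) • e) (by intro x hx; simp) (by
      intro x hx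
      have hxA := (D.lb_le he hx).1
      rw [smul_mul_assoc, mul_smul_comm, he.cen x hxA]) (by
      have hpe : e * p = p * e := he.cen p (D.sc_mem hp)
      have e1 : (p - c • 1) * e * ((p - c • 1) * e) = (p - c • 1) * (p - c • 1) * e := by
        have : e * ((p - c • 1) * e) = (p - c • 1) * e := by
          rw [← mul_assoc, mul_sub, hpe, mul_smul_comm, mul_one, sub_mul, sub_mul,
            smul_mul_assoc, smul_mul_assoc, one_mul, mul_assoc, he.idem]
        rw [mul_assoc, this, mul_assoc]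
      rw [e1]
      simp only [mul_sub, sub_mul, smul_mul_assoc, mul_smul_comm, mul_one, one_mul, D.c1 hp]
      module) (s_ne D he hp hns c)
  exact ⟨I, hI, c, h⟩

lemma mi_tw (D : MStr ω G T p0) (he : Bl (AA G T p0) e) {τ : Module.End K V ≃+* Module.End K V}
    (hτ : τ ∈ T) {σ : K ≃+* K} (hσ : ∀ (c : K) (x : Module.End K V), τ (c • x) = σ c • τ x)
    (h : MI G T p0 e p I) : MI G T p0 (τ e) (τ p) (imT τ hσ I) := by
  obtain ⟨h1, c, hc⟩ := h
  refine ⟨isMin_im (fun x => D.lb_tw he hτ) hσ h1, σ c, ?_⟩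
  rw [mem_imT]
  have : (τ p - σ c • 1) * τ e = τ ((p - c • 1) * e) := by
    rw [map_mul, map_sub, hσ, map_one]
  rw [this, RingEquiv.symm_apply_apply]
  exact hc

lemma mi_conj (D : MStr ω G T p0) (he : Bl (AA G T p0) e) {g h : Module.End K V} (hg : g ∈ G)
    (hh : h ∈ G) (hgh : g * h = 1) (hhg : h * g = 1) (hI : MI G T p0 e p I) :
    MI G T p0 e (g * p * h) I := by
  obtain ⟨h1, c, hc⟩ := hI
  refine ⟨h1, c, ?_⟩
  have h2 := D.lb_id_conj he h1.1 hg hh hgh hhg hc
  have : g * ((p - c • 1) * e) * h = (g * p * h - c • 1) * e := by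
    have k1 : e * h = h * e := he.cen h (D.g_mem hh)
    calc g * ((p - c • 1) * e) * h = g * (p - c • 1) * (e * h) := by simp only [mul_assoc]
      _ = (g * (p - c • 1) * h) * e := by rw [k1]; simp only [mul_assoc]
      _ = _ := by
        rw [mul_sub, sub_mul, mul_smul_comm, smul_mul_assoc, mul_one, hgh]
  rw [← this]
  exact h2

lemma mem_N (D : MStr ω G T p0) (he : Bl (AA G T p0) e) (hp : p ∈ SC G T p0) (hu : u ∈ G)
    (h1 : p * (u - 1) = u - 1) (h2 : (u - 1) * p = 0) (hI : MI G T p0 e p I) :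
    (u - 1) * e ∈ I := by
  obtain ⟨h3, c, hc⟩ := hI
  have hNN : (u - 1) * (u - 1) = 0 := by
    calc (u - 1) * (u - 1) = (u - 1) * (p * (u - 1)) := by rw [h1]
      _ = 0 := by rw [← mul_assoc, h2, zero_mul]
  have h4 := h3.1.2 _ (D.quad_lb he hu hNN) _ hc
  have hpe : e * p = p * e := he.cen p (D.sc_mem hp)
  have hue : e * u = u * e := he.cen u (D.g_mem hu)
  have e1 : (u - 1) * e * ((p - c • 1) * e) = ((u - 1) * (p - c • 1)) * e := by
    have : e * ((p - c • 1) * e) = (p - c • 1) * e := by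
      rw [← mul_assoc, mul_sub, hpe, mul_smul_comm, mul_one, sub_mul, sub_mul,
        smul_mul_assoc, smul_mul_assoc, one_mul, mul_assoc, he.idem]
    rw [mul_assoc, this, mul_assoc]
  have e2 : (p - c • 1) * e * ((u - 1) * e) = ((p - c • 1) * (u - 1)) * e := by
    have : e * ((u - 1) * e) = (u - 1) * e := by
      rw [← mul_assoc, mul_sub, hue, mul_one, sub_mul, sub_mul, one_mul, mul_assoc, he.idem]
    rw [mul_assoc, this, mul_assoc]
  rw [e1, e2, mul_sub, h2, sub_mul p, h1, mul_smul_comm, smul_mul_assoc, mul_one, one_mul,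
    ← sub_mul] at h4
  have e3 : (0 - c • (u - 1) - (u - 1 - c • (u - 1))) * e = - ((u - 1) * e) := by
    rw [← neg_mul]; congr 1; abel
  rw [e3] at h4
  exact (Submodule.neg_mem_iff _).mp h4

open Classical in
/-- The minimal ideal of the block `e` containing the component of `p`. -/
noncomputable def mI (G : Set (Module.End K V)) (T : Set (Module.End K V ≃+* Module.End K V))
    (p0 e p : Module.End K V) : Submodule K (Module.End K V) :=
  if h : ∃ I, MI G T p0 e p I then Classical.choose h else ⊥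

lemma mI_spec (D : MStr ω G T p0) (he : Bl (AA G T p0) e) (hp : p ∈ SC G T p0)
    (hns : p * e ≠ 0 ∧ p * e ≠ e) : MI G T p0 e p (mI G T p0 e p) := by
  unfold mI
  rw [dif_pos (mi_exists D he hp hns)]
  exact Classical.choose_spec (mi_exists D he hp hns)

lemma mI_eq (D : MStr ω G T p0) (he : Bl (AA G T p0) e) (hp : p ∈ SC G T p0)
    (hns : p * e ≠ 0 ∧ p * e ≠ e) (h : MI G T p0 e p I) : mI G T p0 e p = I :=
  mi_unique D he hp hns (mI_spec D he hp hns) h

end main

end SE

section main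
variable {K : Type*} [Field K] [IsAlgClosed K] [CharZero K] {V : Type*} [AddCommGroup V]
  [Module K V] [FiniteDimensional K V]
  {ω : LinearMap.BilinForm K V} {G : Set (Module.End K V)}
  {T : Set (Module.End K V ≃+* Module.End K V)} {p0 ε e p u : Module.End K V}
  {I I' : Submodule K (Module.End K V)}

open SE in
/-- SE: the section theorem. -/
theorem MStr.smp_lb (D : MStr ω G T p0) (hε : Bl (AA G T p0) ε) {r : ℕ} (hr : 0 < r)
    (hb : BadE G T p0 ε r) : Smp (Lb G T p0 ε) := by
  classical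
  let O : Set (Module.End K V) := {e | ∃ τ ∈ T, e = τ ε}
  have hOB : ∀ e ∈ O, Bl (AA G T p0) e := by
    rintro _ ⟨τ, hτ, rfl⟩
    exact D.tw_bl hτ hε
  have hOns : ∀ e ∈ O, ∀ p ∈ SC G T p0, p * e ≠ 0 ∧ p * e ≠ e := by
    rintro _ ⟨τ, hτ, rfl⟩
    exact D.ns (D.tw_bl hτ hε) hr (bad_tw D hτ hb)
  have hOT : ∀ τ ∈ T, ∀ e ∈ O, τ e ∈ O := by
    rintro τ hτ _ ⟨τ', hτ', rfl⟩
    exact ⟨τ'.trans τ, D.tmul _ hτ _ hτ', rfl⟩
  have hεO : ε ∈ O := ⟨_, D.tone, rfl⟩
  have hOfin : O.Finite := by
    apply (bls (AA G T p0)).finite_toSet.subset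
    intro e he
    exact mem_bls.mpr (hOB e he)
  have hOF : Finite O := hOfin
  have hmin : ∀ e ∈ O, {I | IsMin (Lb G T p0 e) I}.Finite := fun e he =>
    (D.red_lb (hOB e he)).finite_min
  let F : Module.End K V → (O → Submodule K (Module.End K V)) := fun p e => mI G T p0 e.1 p
  have hF : ∀ p ∈ SC G T p0, ∀ q ∈ SC G T p0, F p = F q := by
    apply jordan (T := T) _ D.tone D.tmul D.tinv (fun τ hτ p hp => D.c4 hp hτ)
    · -- well defined
      intro τ hτ p hp q hq h
      obtain ⟨σ, hσ⟩ := D.semi τ hτ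
      funext e
      have he0 : τ.symm e.1 ∈ O := hOT _ (D.tinv τ hτ) _ e.2
      have hk : ∀ p ∈ SC G T p0, F (τ p) e = imT τ hσ (F p ⟨τ.symm e.1, he0⟩) := by
        intro p hp
        have h1 := mi_tw D (hOB _ he0) hτ hσ (mI_spec D (hOB _ he0) hp (hOns _ he0 p hp))
        rw [RingEquiv.apply_symm_apply] at h1
        exact mI_eq D (hOB _ e.2) (D.c4 hp hτ) (hOns _ e.2 _ (D.c4 hp hτ)) h1
      rw [hk p hp, hk q hq, h]
    · -- transitivity
      have hk : ∀ τ ∈ T, ∀ g ∈ G, ∀ h ∈ G, g * h = 1 → h * g = 1 →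
          F (g * τ p0 * h) = F (τ p0) := by
        intro τ hτ g hg h hh hgh hhg
        funext e
        have h1 := D.c4 D.p0_mem hτ
        have h2 := D.c3 h1 hg hh hgh hhg
        exact mI_eq D (hOB _ e.2) h2 (hOns _ e.2 _ h2)
          (mi_conj D (hOB _ e.2) hg hh hgh hhg (mI_spec D (hOB _ e.2) h1 (hOns _ e.2 _ h1)))
      rintro _ ⟨τ, hτ, g, hg, h, hh, hgh, hhg, rfl⟩ _ ⟨τ', hτ', g', hg', h', hh', hgh', hhg', rfl⟩
      have hτ'' := D.tmul _ hτ' _ (D.tinv _ hτ)
      refine ⟨τ.symm.trans τ', hτ'', ?_⟩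
      rw [hk τ' hτ' g' hg' h' hh' hgh' hhg']
      have e1 : (τ.symm.trans τ') (g * τ p0 * h) =
          (τ.symm.trans τ') g * τ' p0 * (τ.symm.trans τ') h := by
        rw [map_mul, map_mul]
        congr 2
        change τ' (τ.symm (τ p0)) = _
        rw [RingEquiv.symm_apply_apply]
      rw [e1]
      apply hk τ' hτ' _ (D.tgrp _ hτ'' _ hg) _ (D.tgrp _ hτ'' _ hh)
      · rw [← map_mul, hgh, map_one]
      · rw [← map_mul, hhg, map_one]
    · -- fixed points
      intro τ hτ
      have hx : ∀ I : Submodule K (Module.End K V), ∃ x, I ≠ ⊥ → x ∈ I ∧ x ≠ 0 := by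
        intro I
        by_cases h : I = ⊥
        · exact ⟨0, fun h' => absurd h h'⟩
        · obtain ⟨x, hx, hx0⟩ := Submodule.exists_mem_ne_zero_of_ne_bot h
          exact ⟨x, fun _ => ⟨hx, hx0⟩⟩
      choose x hx using hx
      have hfinI : {I | ∃ e ∈ O, IsMin (Lb G T p0 e) I}.Finite := by
        have : {I | ∃ e ∈ O, IsMin (Lb G T p0 e) I} =
            ⋃ e ∈ O, {I | IsMin (Lb G T p0 e) I} := by
          ext I; simp
        rw [this]
        exact hOfin.biUnion hmin
      obtain ⟨τ', hτ', hE, u, hu, P, hP, h1, h2, h3, h4⟩ :=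
        hb τ hτ (hOfin.toFinset ∪ hfinI.toFinset.image x)
      refine ⟨P, hP, ?_⟩
      obtain ⟨σ, hσ⟩ := D.semi τ hτ
      obtain ⟨σ', hσ'⟩ := D.semi τ' hτ'
      funext e
      obtain ⟨e, he⟩ := e
      have he0 : τ.symm e ∈ O := hOT _ (D.tinv τ hτ) _ he
      generalize hee : τ.symm e = e0 at he0
      have hee' : τ e0 = e := by rw [← hee, RingEquiv.apply_symm_apply]
      have hee'' : τ' e0 = e := by
        rw [hE e0 (by
          apply Finset.mem_union_left
          rw [Set.Finite.mem_toFinset]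
          exact he0), hee']
      have s0 := mI_spec D (hOB _ he0) hP (hOns _ he0 P hP)
      have s1 := mi_tw D (hOB _ he0) hτ hσ s0
      have s2 := mi_tw D (hOB _ he0) hτ' hσ' s0
      have s3 := mI_spec D (hOB _ he) hP (hOns _ he P hP)
      generalize mI G T p0 e0 P = I0 at s0 s1 s2
      rw [hee'] at s1
      rw [hee''] at s2
      have k1 : F (τ P) ⟨e, he⟩ = imT τ hσ I0 :=
        mI_eq D (hOB _ he) (D.c4 hP hτ) (hOns _ he _ (D.c4 hP hτ)) s1
      rw [k1]
      change _ = mI G T p0 e P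
      obtain ⟨hx1, hx2⟩ := hx I0 s0.1.2.1
      have hx3 : τ' (x I0) = τ (x I0) := by
        apply hE
        apply Finset.mem_union_right
        apply Finset.mem_image_of_mem
        rw [Set.Finite.mem_toFinset]
        exact ⟨e0, he0, s0.1⟩
      have k2 : imT τ hσ I0 = imT τ' hσ' I0 := by
        apply s1.1.eq_of_mem s2.1 (x := τ (x I0))
        · rw [mem_imT, RingEquiv.symm_apply_apply]; exact hx1
        · rw [mem_imT, ← hx3, RingEquiv.symm_apply_apply]; exact hx1
        · intro h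
          apply hx2
          have := congrArg τ.symm h
          simpa using this
      rw [k2]
      apply s2.1.eq_of_mem s3.1 (x := (u - 1) * e)
      · rw [mem_imT]
        have : (u - 1) * e = τ' ((u - 1) * e0) := by
          rw [map_mul, map_sub, h3, map_one, hee'']
        rw [this, RingEquiv.symm_apply_apply]
        exact mem_N D (hOB _ he0) hP hu h1 h2 s0
      · exact mem_N D (hOB _ he) hP hu h1 h2 s3
      · obtain ⟨τ1, hτ1, rfl⟩ := he
        intro h0
        have h5 := h4 τ1 hτ1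
        rw [h0] at h5
        have : MTP.rk (0 : Module.End K V) = 0 := rk_eq_zero.mpr rfl
        omega
    · -- finiteness
      apply (Set.Finite.pi (fun e : O => hmin e.1 e.2)).subset
      rintro _ ⟨p, hp, rfl⟩
      intro e _
      exact (mI_spec D (hOB _ e.2) hp (hOns _ e.2 p hp)).1
  have hM := mI_spec D hε D.p0_mem (hOns _ hεO _ D.p0_mem)
  have hle : Lb G T p0 ε ≤ mI G T p0 ε p0 := by
    apply D.lb_gen hε
    · intro x hx y hy
      exact hM.1.1.2 x (hM.1.1.1 hx) y hy
    · intro p hp c hc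
      have h1 := mI_spec D hε hp (hOns _ hεO _ hp)
      have h2 : mI G T p0 ε p = mI G T p0 ε p0 :=
        congrFun (hF p hp p0 D.p0_mem) ⟨ε, hεO⟩
      rw [h2] at h1
      obtain ⟨h3, c', hc'⟩ := h1
      rw [c_unique D hε hc (h3.1.1 hc')]
      exact hc'
  have heq : mI G T p0 ε p0 = Lb G T p0 ε := le_antisymm hM.1.1.1 hle
  intro M hM1 hM2
  by_cases hM0 : M = ⊥
  · exact Or.inl hM0
  · right
    rw [← heq]
    exact hM.1.2.2 M (hM1.trans hle) ⟨hM1, hM2⟩ hM0

end main

end AV
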